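import Pool.Agent.Helper38_LDP.Final

/-!
# Squad DQ2 (MP_366d03_ag): density of the points of degree `k d` on the universal quadric and cubic

## The theorem

`K = KK n d`, `F = FK n d` the universal form of degree `d` in `n + 2` variables over `K`, `Kb` the
algebraic closure of `K`. For `n ≥ 2`, `d ∈ {2, 3}`, `k ≥ 1`: for every polynomial `G` over `Kb` in
the coordinates of `k d` points which does not vanish on the whole of (cone of X) ^ (k d), there is a
closed point of `X` of degree `k d` (a Galois orbit of `k d` points `x_0, x_1, ...` of `X(Kb)`) with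
`G(x_0, x_1, ...) ≠ 0`. This is the Zariski density in `Sym^(kd) X` (Q2).

## Idea

`L = K(s)`, `s` a root of `F(s^k, 1, 0, ..., 0)`, a field of degree `k d` over `K`; `p = (s^k,1,0,..)`
is an `L`-point of `X`. `X_L` has a dominant polynomial parametrisation `Φ` by an affine space over
`L`: `d = 2` projection from `p`; `d = 3`: `Q` in the tangent section at `p` (projection from its
double point `p`), then `R` in the tangent section at `Q` (projection from `Q`). Weil restriction:
the conjugates of the `L`-points `Φ(a)` are dense in `X^(kd)`.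

Each `def X : Prop` is the statement of the row `X`; its proof is in the docstring. A row file
proves `theorem x : X` (or `A → B → X`, with the used rows as hypotheses, in the order of the
column `uses`).
-/

set_option autoImplicit false

open MvPolynomial

namespace Pool.Agent.DQ2

/-! ## Definitions -/

section Defs

variable {R : Type} [CommRing R] {N : ℕ}

/-- `∑_j (∂_j F)(x) y_j` -/
noncomputable def lf (F : MvPolynomial (Fin N) R) (x y : Fin N → R) : R :=
  ∑ j, eval x (pderiv j F) * y j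

/-- `F(v) p - (∑_j (∂_j F)(v) p_j) v`: the last point of `F = 0` on the line through `p` and `v` -/
noncomputable def sec (F : MvPolynomial (Fin N) R) (p v : Fin N → R) : Fin N → R :=
  fun j => eval v F * p j - lf F v p * v j

/-- projection to the tangent hyperplane at `p` in the direction `c` -/
noncomputable def tg (F : MvPolynomial (Fin N) R) (p c v : Fin N → R) : Fin N → R :=
  fun j => lf F p c * v j - lf F p v * c j

/-- the vector `e_i` -/
def ee (N : ℕ) (R : Type) [CommRing R] (i : ℕ) : Fin N → R := fun j => if j.1 = i then 1 else 0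

/-- the vector `(s, 1, 0, ..., 0)` -/
def pt (N : ℕ) {R : Type} [CommRing R] (s : R) : Fin N → R :=
  fun j => if j.1 = 0 then s else if j.1 = 1 then 1 else 0

/-- the parametrisation for `d = 3` -/
noncomputable def phi3 (F : MvPolynomial (Fin N) R) (p v w : Fin N → R) : Fin N → R :=
  sec F (sec F p (tg F p (ee N R 0) v)) (tg F (sec F p (tg F p (ee N R 0) v)) (ee N R 0) w)

/-- the point `Q = sec F p v`, `v = tg F p e_0 a` -/
noncomputable def qq (F : MvPolynomial (Fin N) R) (p a : Fin N → R) : Fin N → R :=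
  sec F p (tg F p (ee N R 0) a)

/-- the genericity condition at `p` for `d = 3`; here `phi3 F p a₁ a₃ = y₀` is a point of the
tangent section at `Q = qq F p a₁` -/
noncomputable def crit (F : MvPolynomial (Fin N) R) (p a₁ a₂ a₃ : Fin N → R) : R :=
  lf F p (ee N R 0) * lf F (qq F p a₁) (ee N R 0) * lf F (phi3 F p a₁ a₃) (qq F p a₁) *
    lf F (qq F p a₂) (phi3 F p a₁ a₃)

end Defs

/-- the points `x_0, ..., x_(m-1)` of the projective space over the algebraic closure of `K` are
pairwise different, lie on `F = 0`, and form one orbit of the Galois group of `K`: they are the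
geometric points of a closed point of degree `m` of the hypersurface `F = 0` -/
structure IsClPt {K : Type} [Field K] {N : ℕ} (F : MvPolynomial (Fin N) K) (m : ℕ)
    (x : Fin m → Fin N → AlgebraicClosure K) : Prop where
  on : ∀ i, aeval (x i) F = 0
  ne : ∀ i, x i ≠ 0
  inj : ∀ i j, i ≠ j → ∀ c : AlgebraicClosure K, x i ≠ c • x j
  trans : ∀ i j, ∃ (θ : AlgebraicClosure K ≃ₐ[K] AlgebraicClosure K) (c : AlgebraicClosure K),
    (fun a => θ (x i a)) = c • x j
  stab : ∀ (θ : AlgebraicClosure K ≃ₐ[K] AlgebraicClosure K) (i), ∃ (j : Fin m)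
    (c : AlgebraicClosure K), (fun a => θ (x i a)) = c • x j

/-- the closed points of degree `m` of `F = 0` are dense in the `m`-th symmetric power: every
polynomial `G` in the coordinates of `m` points which does not vanish on all `m`-tuples of points
of (the cone over) `F = 0` over the algebraic closure is nonzero at (the geometric points of) some
closed point of degree `m` -/
def Dens {K : Type} [Field K] {N : ℕ} (F : MvPolynomial (Fin N) K) (m : ℕ) : Prop :=
  ∀ (G : MvPolynomial (Fin m × Fin N) (AlgebraicClosure K))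
    (y : Fin m → Fin N → AlgebraicClosure K), (∀ i, aeval (y i) F = 0) →
    eval (fun q => y q.1 q.2) G ≠ 0 →
    ∃ x : Fin m → Fin N → AlgebraicClosure K, IsClPt F m x ∧ eval (fun q => x q.1 q.2) G ≠ 0

/-- `Φ` is a dominant polynomial parametrisation over `L` of the cone over `F = 0` -/
def DomP {K : Type} [Field K] {N : ℕ} (F : MvPolynomial (Fin N) K) {L M : Type} [Field L]
    [Algebra K L] (Φ : Fin N → MvPolynomial M L) : Prop :=
  aeval Φ F = 0 ∧
  ∀ (σ : L →ₐ[K] AlgebraicClosure K) (g : MvPolynomial (Fin N) (AlgebraicClosure K))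
    (y : Fin N → AlgebraicClosure K), aeval y F = 0 → eval y g ≠ 0 →
    ∃ v : M → AlgebraicClosure K, eval (fun a => eval v (map (σ : L →+* AlgebraicClosure K) (Φ a))) g ≠ 0

/-- two different points -/
def TwoPts {K : Type} [Field K] {N : ℕ} (F : MvPolynomial (Fin N) K) : Prop :=
  ∃ (y y' : Fin N → AlgebraicClosure K) (a b : Fin N), aeval y F = 0 ∧ aeval y' F = 0 ∧
    y a * y' b ≠ y b * y' a

/-- the polynomial `F(X^k, 1, 0, ..., 0)` -/
noncomputable def fk (n d k : ℕ) : Polynomial (LDP.AA n d) :=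
  eval (pt (n + 2) ((Polynomial.X : Polynomial (LDP.AA n d)) ^ k))
    (map (Polynomial.C : LDP.AA n d →+* Polynomial (LDP.AA n d)) (LDP.FA n d))

/-- the polynomial `F(X^k, 1, 0, ..., 0)` over `K` -/
noncomputable def fK (n d k : ℕ) : Polynomial (LDP.KK n d) :=
  (fk n d k).map (algebraMap (LDP.AA n d) (LDP.KK n d))

/-- the value of a polynomial in `s` and `y` -/
noncomputable def ev2 {E : Type} [Field E] {N : ℕ} (A : Polynomial (MvPolynomial (Fin N) E))
    (y : Fin N → E) (s : E) : E :=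
  Polynomial.eval₂ (eval y : MvPolynomial (Fin N) E →+* E) s A

/-- the example for `d = 3`: `x_0^3 + x_0 x_1^2 + x_3^3 + x_1 x_2 x_3` (variables `x_0 .. x_(n+1)`) -/
noncomputable def F3 (n : ℕ) (hn : 2 ≤ n) : MvPolynomial (Fin (n + 2)) ℂ :=
  X ⟨0, by omega⟩ ^ 3 + X ⟨0, by omega⟩ * X ⟨1, by omega⟩ ^ 2 + X ⟨3, by omega⟩ ^ 3 +
    X ⟨1, by omega⟩ * X ⟨2, by omega⟩ * X ⟨3, by omega⟩

/-! ## Part A: algebra -/

/-- NAT: naturality. Proof: ring homomorphisms commute with `eval` (`MvPolynomial.eval₂_comp_left`,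
`map_eval`-like lemmas), `pderiv` commutes with `map` (`MvPolynomial.pderiv_map`), then unfold. The
last two by the first three. -/
def NAT : Prop :=
  ∀ (R S : Type) [CommRing R] [CommRing S] (φ : R →+* S) (N : ℕ) (F : MvPolynomial (Fin N) R),
    (∀ x y : Fin N → R, φ (lf F x y) = lf (map φ F) (fun j => φ (x j)) (fun j => φ (y j))) ∧
    (∀ (x y : Fin N → R) (j : Fin N),
      φ (sec F x y j) = sec (map φ F) (fun j => φ (x j)) (fun j => φ (y j)) j) ∧
    (∀ (x c y : Fin N → R) (j : Fin N), φ (tg F x c y j) =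
      tg (map φ F) (fun j => φ (x j)) (fun j => φ (c j)) (fun j => φ (y j)) j) ∧
    (∀ (x a b : Fin N → R) (j : Fin N), φ (phi3 F x a b j) =
      phi3 (map φ F) (fun j => φ (x j)) (fun j => φ (a j)) (fun j => φ (b j)) j) ∧
    (∀ (x a b c : Fin N → R), φ (crit F x a b c) =
      crit (map φ F) (fun j => φ (x j)) (fun j => φ (a j)) (fun j => φ (b j)) (fun j => φ (c j)))

/-- TAY: expansion of a quadratic or cubic form on a line.

Proof. All statements are additive in `F`, and a homogeneous polynomial of degree `2` (`3`) is a sum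
of monomials `c X_i X_j` (`c X_i X_j X_k`); for these it is a computation (`pderiv` of a product,
`∑_l Pi.single`-like sums). The first part is trivial from the definition (the sum is linear in
`y`). -/
def TAY : Prop :=
  ∀ (R : Type) [CommRing R] (N : ℕ) (F : MvPolynomial (Fin N) R),
    (∀ (x y z : Fin N → R) (s t : R),
      lf F x (fun j => s * y j + t * z j) = s * lf F x y + t * lf F x z) ∧
    (F.IsHomogeneous 2 → ∀ (x y : Fin N → R) (s t : R), lf F y x = lf F x y ∧
      lf F x x = 2 * eval x F ∧ lf F (fun j => s * x j) y = s * lf F x y ∧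
      eval (fun j => s * x j + t * y j) F =
        s ^ 2 * eval x F + s * t * lf F x y + t ^ 2 * eval y F) ∧
    (F.IsHomogeneous 3 → ∀ (x y : Fin N → R) (s t : R),
      lf F x x = 3 * eval x F ∧ lf F (fun j => s * x j) y = s ^ 2 * lf F x y ∧
      eval (fun j => s * x j + t * y j) F =
        s ^ 3 * eval x F + s ^ 2 * t * lf F x y + s * t ^ 2 * lf F y x + t ^ 3 * eval y F)

/-- NUL: the zero set of an irreducible polynomial is irreducible. Proof: Nullstellensatz: if
`g₁ g₂` vanishes on `V(F)` then a power of it is in `(F)` (`MvPolynomial.vanishingIdeal_zeroLocus_eq_radical`),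
`F` is prime (UFD), so `F ∣ g₁` or `F ∣ g₂`. The second part: the same with one polynomial. -/
def NUL : Prop :=
  ∀ (E : Type) [Field E] [IsAlgClosed E] (N : ℕ) (F : MvPolynomial (Fin N) E), Irreducible F →
    (∀ g₁ g₂ : MvPolynomial (Fin N) E, (∃ y, eval y F = 0 ∧ eval y g₁ ≠ 0) →
      (∃ y, eval y F = 0 ∧ eval y g₂ ≠ 0) →
      ∃ y, eval y F = 0 ∧ eval y g₁ ≠ 0 ∧ eval y g₂ ≠ 0) ∧
    (∀ g : MvPolynomial (Fin N) E, ¬ F ∣ g → ∃ y, eval y F = 0 ∧ eval y g ≠ 0)

/-- PSD (uses NUL): a good root moves. `A`, `B` are polynomials in `s` with coefficients in `E[y]`.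

Proof. First case: `A` has a coefficient `A_m`, `m ≥ natDegree A`, with `A_m(y0) ≠ 0` (so
`m = natDegree A`). Pseudo-division: `c = A_m`, for every polynomial `B'` there are `t`, `Q`, `R'`
with `c^t B' = A Q + R'`, `deg R' < m` (induction on the degree of `B'`; or divide in
`Frac(E[y])[s]` and clear denominators by powers of `c`; if `m = 0` then `A(y0, s0) = 0` is
impossible). Take `B' = B^m`. If the claim is false, then for all `y` with `F(y) = 0`, `g(y) ≠ 0`,
`c(y) ≠ 0`: every root of `A(y, s)` is a root of `B(y, s)`, hence `A(y, ·) ∣ B(y, ·)^m` (it splits,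
all multiplicities are `≤ m`), hence `R'(y, ·) = 0` (degree `< m = deg A(y, ·)`). By NUL (first part,
twice) every coefficient of `R'` vanishes on `V(F)` (otherwise there is `y` with `F(y) = 0` and
`g(y)`, `c(y)`, `R'_j(y)` all nonzero). So at `y0`: `c(y0)^t B(y0, s)^m = A(y0, s) Q(y0, s)`, and
`s = s0` gives a contradiction.

General case: `A'(y, u) = u^N A(y, s1 + 1/u)`, `N = natDegree A` (`Polynomial.comp (X + C s1)`, then
`Polynomial.reflect N`, or `reverse`), the coefficient of `u^N` of `A'` is `A(y, s1)`, nonzero at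
`y0`; the same for `B` with its own degree; `u0 = 1 / (s0 - s1)` (`s0 ≠ s1`). The first case for
`A'`, `X * B'`, gives `(y, u)` with `u ≠ 0`, and `s = s1 + 1/u`. -/
def PSD : Prop :=
  ∀ (E : Type) [Field E] [IsAlgClosed E] (N : ℕ) (F g : MvPolynomial (Fin N) E)
    (A B : Polynomial (MvPolynomial (Fin N) E)) (y0 : Fin N → E) (s0 s1 : E), Irreducible F →
    (∃ y, eval y F = 0 ∧ eval y g ≠ 0) → eval y0 F = 0 → ev2 A y0 s0 = 0 → ev2 B y0 s0 ≠ 0 →
    ev2 A y0 s1 ≠ 0 →
    ∃ (y : Fin N → E) (s : E), eval y F = 0 ∧ eval y g ≠ 0 ∧ ev2 A y s = 0 ∧ ev2 B y s ≠ 0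

/-- DO2 (uses TAY NUL): dominance for `d = 2`.

Proof. `lf F p (·)` is (as a polynomial in `y`) a nonzero linear form, so `F` does not divide it
(`totalDegree`), and by NUL (second part) it is nonzero at some point of `V(F)`; by NUL (first part)
there is `y'` with `F(y') = 0`, `g(y') ≠ 0`, `lf F p y' ≠ 0`. For `v = τ y'`:
`sec F p v = τ² F(y') p - τ lf F y' p • τ y' = - τ² (lf F p y') y'` (TAY: symmetry). Choose `τ` with
`- τ² lf F p y' = 1` (`IsAlgClosed.exists_pow_nat_eq`). -/
def DO2 : Prop :=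
  ∀ (E : Type) [Field E] [IsAlgClosed E] (N : ℕ) (F g : MvPolynomial (Fin N) E)
    (p y : Fin N → E), F.IsHomogeneous 2 → Irreducible F → lf F p (ee N E 0) ≠ 0 →
    eval y F = 0 → eval y g ≠ 0 → ∃ v : Fin N → E, eval (sec F p v) g ≠ 0

/-- DO3 (uses NAT TAY PSD): dominance for `d = 3`.

Proof. `v* = tg F p e_0 a₁`, `v₁ = tg F p e_0 a₂` (both satisfy `lf F p (·) = 0`),
`v(s) = v* + s (v₁ - v*)`, `Q(s) = sec F p (v(s))`, so `Q(0) = qq F p a₁ = Q*`, `Q(1) = qq F p a₂`,
`y0 = phi3 F p a₁ a₃`. For every `v` with `lf F p v = 0` (and `F(p) = 0`): `F(sec F p v) = 0` by TAY.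
So `F(Q*) = 0`, and as `w = tg F Q* e_0 a₃` satisfies `lf F Q* w = 0` also `F(y0) = 0`, and
`lf F Q* y0 = F(w) lf F Q* Q* - lf F w Q* * lf F Q* w = F(w) * 3 F(Q*) - 0 = 0`. Let
`A = lf F (Q(s)) y`, `B = lf F y (Q(s)) * lf F (Q(s)) e_0`, as elements of `E[y][s]` (apply `lf`, `sec`
over the ring `Polynomial (MvPolynomial (Fin N) E)` to the image of `F`; NAT for the evaluation
`Polynomial.eval₂RingHom (eval y) s` gives the values). `A(y0, 0) = 0`, `B(y0, 0) ≠ 0`,
`A(y0, 1) ≠ 0` by `crit ≠ 0`. PSD (`s0 = 0`, `s1 = 1`) gives `y`, `s` with `F(y) = 0`, `g(y) ≠ 0`,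
`lf F Q y = 0`, `lf F y Q ≠ 0`, `lf F Q e_0 ≠ 0`, `Q = Q(s)`. Put `v' = (lf F p e_0)⁻¹ v(s)`: then
`tg F p e_0 v' = v(s)`. Put `w' = (τ / lf F Q e_0) y`: then `tg F Q e_0 w' = τ y`, and
`phi3 F p v' w' = sec F Q (τ y) = τ³ F(y) Q - lf F (τ y) Q • τ y = - τ³ (lf F y Q) y`. Choose `τ` with
`- τ³ lf F y Q = 1`. -/
def DO3 : Prop :=
  ∀ (E : Type) [Field E] [IsAlgClosed E] (N : ℕ) (F g : MvPolynomial (Fin N) E)
    (p y a₁ a₂ a₃ : Fin N → E), F.IsHomogeneous 3 → Irreducible F → eval p F = 0 →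
    crit F p a₁ a₂ a₃ ≠ 0 → eval y F = 0 → eval y g ≠ 0 →
    ∃ v w : Fin N → E, eval (phi3 F p v w) g ≠ 0

/-! ## Part B: Weil restriction -/

/-- WRS: the conjugates of the `L`-rational points of an affine space are dense.

Proof. Let `b_1 .. b_m` be a `K`-basis of `L` (`m = finrank`, the `e i` are all the embeddings). The
matrix `(e_i (b_j))` is invertible (`Algebra.embeddingsMatrixReindex`,
`Algebra.discr_not_zero_of_basis`, `Algebra.discr_eq_det_embeddingsMatrixReindex_pow_two`; or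
`linearIndependent_monoidHom`). Substituting `Y_(i,c) = ∑_j e_i(b_j) Z_(j,c)` in `H` is injective on
polynomials (an invertible linear substitution), so the result `H'(Z)` is a nonzero polynomial over
`Kb`. `K` is infinite (char 0), so there are `z_(j,c) ∈ K` with `H'(z) ≠ 0` (`MvPolynomial.funext_set`
or an induction on the number of variables), and `a c = ∑_j z_(j,c) b_j`. -/
def WRS : Prop :=
  ∀ (K L M : Type) [Field K] [CharZero K] [Field L] [Algebra K L] [FiniteDimensional K L]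
    [Finite M] (m : ℕ) (e : Fin m ≃ (L →ₐ[K] AlgebraicClosure K))
    (H : MvPolynomial (Fin m × M) (AlgebraicClosure K)), H ≠ 0 →
    ∃ a : M → L, eval (fun q => e q.1 (a q.2)) H ≠ 0

/-- EXT: embeddings extend to automorphisms. Proof: `Kb` is an algebraic closure of `L` through `σ`
and through `τ` (`IsAlgClosure.equiv`, or `IsAlgClosed.lift`: an endomorphism of the algebraic
extension `Kb / K` is bijective, `Algebra.IsAlgebraic.algHom_bijective`). -/
def EXT : Prop :=
  ∀ (K L : Type) [Field K] [Field L] [Algebra K L] [FiniteDimensional K L]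
    (σ τ : L →ₐ[K] AlgebraicClosure K),
    ∃ θ : AlgebraicClosure K ≃ₐ[K] AlgebraicClosure K, ∀ z : L, θ (σ z) = τ z

/-- PRD: replace the points one after the other. Here `Ψ i : (M → E) → (Fin N → E)` are any maps and
`Z` any set such that for every `i` and every polynomial `g` which is nonzero at some point of `Z`
there is `v` with `g(Ψ i v) ≠ 0`.

Proof. Induction on `r ≤ m`: there is `v` such that `G` is nonzero at the tuple with the points
`Ψ i (v i)` for `i < r` and `y i` for `i ≥ r`. Step: fix all points except the `r`-th: `G` becomes a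
polynomial `g` in the coordinates of the `r`-th point (substitute constants: `MvPolynomial.bind₁` or
`eval₂Hom`), nonzero at `y r`. -/
def PRD : Prop :=
  ∀ (E M : Type) [Field E] (m N : ℕ) (Z : Set (Fin N → E)) (Ψ : Fin m → (M → E) → (Fin N → E)),
    (∀ (i : Fin m) (g : MvPolynomial (Fin N) E) (y : Fin N → E), y ∈ Z → eval y g ≠ 0 →
      ∃ v : M → E, eval (Ψ i v) g ≠ 0) →
    ∀ (G : MvPolynomial (Fin m × Fin N) E) (y : Fin m → Fin N → E), (∀ i, y i ∈ Z) →
      eval (fun q => y q.1 q.2) G ≠ 0 →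
      ∃ v : Fin m → M → E, eval (fun q => Ψ q.1 (v q.1) q.2) G ≠ 0

/-- ASM (uses WRS EXT PRD): density from a dominant parametrisation.

Proof. `m = finrank K L`, `e : Fin m ≃ (L →ₐ[K] Kb)` (`AlgHom.card`, separable since char 0). For a
polynomial `G` put `H_G = ` the polynomial in `Fin m × M` variables obtained by substituting
`Y_(i,a) = rename (fun c => (i, c)) (map (e i) (Φ a))`; its value at `v` is
`G((Φ_a^(e i) (v_i))_(i,a))`. By PRD (`Z = {y : F(y) = 0}`, `Ψ i v a = eval v (map (e i) (Φ a))`)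
`H_G ≠ 0` if `G(y) ≠ 0` for some tuple of points of `V(F)`. Apply this to the given `G`, and to
`G_ij = Y_(i,a) Y_(j,b) - Y_(i,b) Y_(j,a)` for `i ≠ j` (`a`, `b` from TwoPts, with the tuple `y` at `i`,
`y'` elsewhere). The product `H = H_G ∏_(i ≠ j) H_(G_ij)` is nonzero; WRS gives `c : M → L` with
`H(e_i (c)) ≠ 0`. Put `x_i(a) = e_i (eval c (Φ a))`. Then `G(x) ≠ 0`, `x_i` and `x_j` are not
proportional (so also `x_i ≠ 0`, as `m ≥ 2`), `F(x_i) = e_i (F(Φ(c))) = 0`, and the orbit conditions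
hold with `c = 1` by EXT (transitive) and since `θ ∘ e_i` is again one of the `e_j` (stable). -/
def ASM : Prop :=
  ∀ (K L M : Type) [Field K] [CharZero K] [Field L] [Algebra K L] [FiniteDimensional K L]
    [Finite M] (N : ℕ) (F : MvPolynomial (Fin N) K) (Φ : Fin N → MvPolynomial M L),
    2 ≤ Module.finrank K L → TwoPts F → DomP F Φ → Dens F (Module.finrank K L)

/-! ## Part C: the universal form -/

/-- HOM: `FA` is homogeneous of degree `d` with coefficients `cf n d m`. -/
def HOM : Prop :=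
  ∀ (n d : ℕ), (LDP.FA n d).IsHomogeneous d ∧
    (∀ m : Fin (n + 2) →₀ ℕ, m.degree = d → coeff m (LDP.FA n d) = LDP.cf n d m)

/-- SPC (uses HOM): specialisation to any complex form. Proof: `φ = aeval (fun m => coeff m.1 F)`. -/
def SPC : Prop :=
  ∀ (n d : ℕ) (F : MvPolynomial (Fin (n + 2)) ℂ), F.IsHomogeneous d →
    coeff (Finsupp.single 0 d) F = 1 → ∃ φ : LDP.AA n d →+* ℂ, map φ (LDP.FA n d) = F

/-- FLD (uses HOM): `F(X^k, 1, 0, .., 0)` is irreducible.

Proof. `fk = ∑_(i ≤ d) c_i X^(k i)`, with `c_i = cf` of the monomial `x_0^i x_1^(d-i)`, `c_d = 1`: monic of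
degree `k d`. Eisenstein (`Polynomial.irreducible_of_eisenstein_criterion`) for the prime ideal of
`AA` generated by all variables (the kernel of the constant coefficient): `c_0, .., c_(d-1)` are
variables, and `c_0 ∉ P²` (a variable is not in the square: all coefficients of degree one of the
elements of `P²` are zero; or apply the map to `ℂ[T]` with the variable `c_0 ↦ T`, others `↦ 0`:
`P²` goes into `(T²)`). So `fk` is irreducible over `AA`, and over `K` by Gauss's lemma
(`Polynomial.Monic.irreducible_iff_irreducible_map_fraction_map`). -/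
def FLD : Prop :=
  ∀ (n d k : ℕ), 1 ≤ d → 1 ≤ k → (fk n d k).Monic ∧ (fk n d k).natDegree = k * d ∧
    Irreducible (fK n d k)

/-- TRP (uses FLD): transfer from one complex example.

Proof. If `P(s) = 0`, then the minimal polynomial `fK` of `s` divides `P` over `K`, so `fk ∣ P` over
`AA` (`Polynomial.map_dvd_map`, `fk` monic), so `P^φ(α) = 0`. -/
def TRP : Prop :=
  ∀ (n d k : ℕ), 1 ≤ d → 1 ≤ k → ∀ (P : Polynomial (LDP.AA n d)) (φ : LDP.AA n d →+* ℂ) (α : ℂ),
    Polynomial.eval₂ φ α (fk n d k) = 0 → Polynomial.eval₂ φ α P ≠ 0 →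
    ∀ (E : Type) [Field E] [Algebra (LDP.KK n d) E] (s : E), Polynomial.aeval s (fK n d k) = 0 →
      Polynomial.aeval s (P.map (algebraMap (LDP.AA n d) (LDP.KK n d))) ≠ 0

/-- LFD (uses FLD): the field `L`. Proof: `L = AdjoinRoot (fK n d k)`, `s` the root;
`F(s^k, 1, 0, ..) = fK(s)`. The last part: `F(pt (s^k))` is `fK(s)` over every extension. -/
def LFD : Prop :=
  ∀ (n d k : ℕ), 1 ≤ d → 1 ≤ k →
    (∃ (L : Type) (_ : Field L) (_ : Algebra (LDP.KK n d) L) (s : L),
      FiniteDimensional (LDP.KK n d) L ∧ Module.finrank (LDP.KK n d) L = k * d ∧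
      Polynomial.aeval s (fK n d k) = 0) ∧
    (∀ (E : Type) [Field E] [Algebra (LDP.KK n d) E] (s : E),
      aeval (pt (n + 2) (s ^ k)) (LDP.FK n d) = Polynomial.aeval s (fK n d k))

/-- NUM: the example for `d = 3`. Computation (write `n = m + 2`): with `p = (0,1,0,0)`,
`a₁ = (0,0,1,1)`, `a₂ = (0,0,0,1)`, `a₃ = (0,1,0,0)`: `tg p e_0 a₁ = (0,0,1,1)`, `Q* = (0,1,-1,-1)`,
`tg Q* e_0 a₃ = (-1,1,0,0)`, `y0 = phi3 p a₁ a₃ = (-2,0,2,2)`, `qq p a₂ = (0,1,0,0)`; the four factors
of `crit` are `1, 1, -8, -2`. (`lf F x y = (3 x_0² + x_1²) y_0 + (2 x_0 x_1 + x_2 x_3) y_1 +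
x_1 x_3 y_2 + (3 x_3² + x_1 x_2) y_3`.) -/
def NUM : Prop :=
  ∀ (n : ℕ) (hn : 2 ≤ n), (F3 n hn).IsHomogeneous 3 ∧
    coeff (Finsupp.single 0 3) (F3 n hn) = 1 ∧ eval (pt (n + 2) (0 : ℂ)) (F3 n hn) = 0 ∧
    crit (F3 n hn) (pt (n + 2) (0 : ℂ)) (fun j => ee (n + 2) ℂ 2 j + ee (n + 2) ℂ 3 j)
      (ee (n + 2) ℂ 3) (ee (n + 2) ℂ 1) ≠ 0

/-- CRT (uses NAT TRP SPC NUM): the genericity conditions hold at `(s^k, 1, 0, ..)`.

Proof. `d = 3`: `P = crit FA (pt (X^k)) a₁ a₂ a₃ ∈ AA[X]` (over the ring `AA[X]`, the form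
`map C FA`), its value at `s` is the crit over `E` (NAT for `AA[X] → E`) and its specialisation by
`φ` of SPC (`F = F3`), `α = 0` (so `α^k = 0`, `k ≥ 1`) is the crit of NUM (NAT for `AA[X] → ℂ`,
`Polynomial.eval₂RingHom φ 0`); TRP. `d = 2`: the same for `lf` with `F = X_0² + X_0 X_1`, `α = 0`:
`lf F (0,1,0..) e_0 = 1`. -/
def CRT : Prop :=
  ∀ (n k : ℕ), 2 ≤ n → 1 ≤ k →
    (∀ (E : Type) [Field E] [Algebra (LDP.KK n 2) E] (s : E), Polynomial.aeval s (fK n 2 k) = 0 →
      lf (map (algebraMap (LDP.KK n 2) E) (LDP.FK n 2)) (pt (n + 2) (s ^ k)) (ee (n + 2) E 0) ≠ 0) ∧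
    (∀ (E : Type) [Field E] [Algebra (LDP.KK n 3) E] (s : E), Polynomial.aeval s (fK n 3 k) = 0 →
      crit (map (algebraMap (LDP.KK n 3) E) (LDP.FK n 3)) (pt (n + 2) (s ^ k))
        (fun j => ee (n + 2) E 2 j + ee (n + 2) E 3 j) (ee (n + 2) E 3) (ee (n + 2) E 1) ≠ 0)

/-- TWP (uses HOM): two points of `X(Kb)`. Proof: `(r, 1, 0, ..)` and `(r', 0, 1, 0, ..)`: the
polynomials `F(x, 1, 0, ..)`, `F(x, 0, 1, 0, ..)` are monic of degree `d ≥ 1`; `a = 1`, `b = 2`. -/
def TWP : Prop := ∀ (n d : ℕ), 2 ≤ n → 1 ≤ d → TwoPts (LDP.FK n d)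

/-- IR1: a reducible form of degree `2` or `3` has a linear factor; restriction to `x_0, x_1, x_2`.

Proof. View `F` as a polynomial in `x_0` over `S = E[x_1, .., x_(n+1)]` (`MvPolynomial.finSuccEquiv`):
monic of degree `d`. By `Polynomial.Monic.irreducible_iff_roots_eq_zero_of_degree_le_three` it has a
root `r ∈ S`: `F(r(x'), x') = 0`. For `x' ∈ E^(n+1)` let `ρ(t) = r(t x') ∈ E[t]`; then
`ρ^d + c_1 t ρ^(d-1) + .. + c_d t^d = 0` with `c_i = c_i(x') ∈ E`; so `t ∣ ρ`, `ρ = t ρ'`, and `ρ'` is a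
root of a monic polynomial with coefficients in `E`, hence a constant: `r(t x') = t r(x')` for all
`t ∈ E`. (Or: by degrees.) With `r₁ = r(1,0,..)`, `r₂ = r(0,1,0,..)` and the polynomial `r(t, u, 0, ..)`,
homogeneous of degree one: `r(t, u, 0, ..) = r₁ t + r₂ u`. -/
def IR1 : Prop :=
  ∀ (E : Type) [Field E] [IsAlgClosed E] [CharZero E] (n d : ℕ) (F : MvPolynomial (Fin (n + 2)) E),
    2 ≤ n → (d = 2 ∨ d = 3) → F.IsHomogeneous d → coeff (Finsupp.single 0 d) F = 1 →
    ¬ Irreducible F → ∃ r₁ r₂ : E, ∀ t u : E,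
      eval (fun j : Fin (n + 2) => if j.1 = 0 then r₁ * t + r₂ * u else if j.1 = 1 then t else
        if j.1 = 2 then u else 0) F = 0

/-- TRS: an algebraically closed subfield without the variable `i₀`.

Proof. `S` = the elements of `E` algebraic over the subfield generated by `ℂ` and the `X_i`,
`i ≠ i₀` (`integralClosure` / `algebraicClosure` as an intermediate field). `X_(i₀) ∉ S` by algebraic
independence of the variables (`MvPolynomial.algebraicIndependent_X`,
`AlgebraicIndependent.transcendental_adjoin`-like lemmas, or the ring isomorphism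
`ℂ[X_i, i ≠ i₀][T]`, `MvPolynomial.optionEquivLeft`). -/
def TRS : Prop :=
  ∀ (ι : Type) (i₀ : ι), ∃ S : Subfield (AlgebraicClosure (FractionRing (MvPolynomial ι ℂ))),
    (∀ c : ℂ, algebraMap (FractionRing (MvPolynomial ι ℂ)) _
      (algebraMap (MvPolynomial ι ℂ) _ (C c)) ∈ S) ∧
    (∀ i : ι, i ≠ i₀ → algebraMap (FractionRing (MvPolynomial ι ℂ)) _
      (algebraMap (MvPolynomial ι ℂ) _ (X i)) ∈ S) ∧
    algebraMap (FractionRing (MvPolynomial ι ℂ))
      (AlgebraicClosure (FractionRing (MvPolynomial ι ℂ)))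
      (algebraMap (MvPolynomial ι ℂ) _ (X i₀)) ∉ S ∧
    (∀ (z : AlgebraicClosure (FractionRing (MvPolynomial ι ℂ)))
      (f : Polynomial (AlgebraicClosure (FractionRing (MvPolynomial ι ℂ)))), f ≠ 0 →
      (∀ j, f.coeff j ∈ S) → f.eval z = 0 → z ∈ S)

/-- IR2 (uses HOM TRS): the universal form has no linear factor.

Proof. `i₀` = the monomial `x_1^(d-1) x_2`, `S` from TRS. `t = 1, u = 0`: `F(r₁, 1, 0, ..) = 0`, a monic
polynomial equation of degree `d` for `r₁` with coefficients `c_m`, `m = x_0^i x_1^(d-i)` (all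
`≠ i₀`), so `r₁ ∈ S`; `t = 0, u = 1`: `r₂ ∈ S` in the same way. The coefficient of `t^(d-1) u` of the
polynomial `F(r₁ t + r₂ u, t, u, 0, ..)` (zero for all `t, u`, the field is infinite) is
`c_(i₀) +` an element of `S` (a polynomial in `r₁`, `r₂` and the `c_m`, `m ≠ i₀`), so
`c_(i₀) ∈ S`, contradiction. (For `d = 2, 3` one can take `t = 1` and `u = 0, 1, -1, 2`, and solve
the linear system, or differentiate at `u = 0`.) -/
def IR2 : Prop :=
  ∀ (n d : ℕ), 2 ≤ n → (d = 2 ∨ d = 3) → ¬ ∃ r₁ r₂ : AlgebraicClosure (LDP.KK n d),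
    ∀ t u : AlgebraicClosure (LDP.KK n d),
      aeval (fun j : Fin (n + 2) => if j.1 = 0 then r₁ * t + r₂ * u else if j.1 = 1 then t else
        if j.1 = 2 then u else 0) (LDP.FK n d) = 0

/-- IRR (uses HOM IR1 IR2): the universal form is geometrically irreducible. -/
def IRR : Prop :=
  ∀ (n d : ℕ), 2 ≤ n → (d = 2 ∨ d = 3) →
    Irreducible (map (algebraMap (LDP.KK n d) (AlgebraicClosure (LDP.KK n d))) (LDP.FK n d))

/-- DM2 (uses NAT TAY HOM LFD CRT IRR DO2): the parametrisation for `d = 2`.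

Proof. `L`, `s` from LFD, `p = pt (s^k)` over `L`, `M = Fin (n + 2)`,
`Φ = sec (map (algebraMap K L[M]) F) (C ∘ p) X`, over the ring `MvPolynomial M L`. `F(Φ) = 0` by TAY
(over the ring `MvPolynomial M L`: `F(F(v) p - B(p,v) v) = F(v)² F(p) - F(v) B(p,v)² + B(p,v)² F(v)`).
The value at `v` of `map σ (Φ a)` is `sec F_Kb (σ ∘ p) v a` (NAT for
`eval₂Hom σ v : MvPolynomial M L → Kb`), `σ ∘ p = pt ((σ s)^k)`, DO2 with `lf ≠ 0` from CRT. -/
def DM2 : Prop :=
  ∀ (n k : ℕ), 2 ≤ n → 1 ≤ k → ∃ (L : Type) (_ : Field L) (_ : Algebra (LDP.KK n 2) L)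
    (Φ : Fin (n + 2) → MvPolynomial (Fin (n + 2)) L),
    FiniteDimensional (LDP.KK n 2) L ∧ Module.finrank (LDP.KK n 2) L = k * 2 ∧
      DomP (LDP.FK n 2) Φ

/-- DM3 (uses NAT TAY HOM LFD CRT IRR DO3): the parametrisation for `d = 3`.

Proof. As DM2 with `M = Fin (n + 2) ⊕ Fin (n + 2)`,
`Φ = phi3 F (C ∘ p) (X ∘ Sum.inl) (X ∘ Sum.inr)` over `MvPolynomial M L`. `F(Φ) = 0` by TAY, twice: if
`F(p) = 0` and `lf F p v = 0` then `F(sec F p v) = 0` (over any commutative ring), and
`lf F p (tg F p c v) = 0`. DO3 with `crit ≠ 0` from CRT. -/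
def DM3 : Prop :=
  ∀ (n k : ℕ), 2 ≤ n → 1 ≤ k → ∃ (L : Type) (_ : Field L) (_ : Algebra (LDP.KK n 3) L)
    (Φ : Fin (n + 2) → MvPolynomial (Fin (n + 2) ⊕ Fin (n + 2)) L),
    FiniteDimensional (LDP.KK n 3) L ∧ Module.finrank (LDP.KK n 3) L = k * 3 ∧
      DomP (LDP.FK n 3) Φ

/-- FIN (uses ASM TWP DM2 DM3): Q2 for `d = 2, 3`. -/
def FIN : Prop :=
  ∀ (n d k : ℕ), 2 ≤ n → (d = 2 ∨ d = 3) → 1 ≤ k → Dens (LDP.FK n d) (k * d)

end Pool.Agent.DQ2
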